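import Pool.Agent.H593R2.MP

/-! Rectangles with two vertices on each of two graphs that coincide (and are horizontal)
outside `[0,1]`. -/

open Set Filter Topology MeasureTheory

namespace H593R2

/-- primitive -/
noncomputable def prim (f : ℝ → ℝ) (x : ℝ) : ℝ := ∫ s in (0 : ℝ)..x, f s

/-- the action functional -/
noncomputable def act (f g : ℝ → ℝ) (r : ℝ) (x : ℝ × ℝ × ℝ) : ℝ :=
  prim f (x.1 + x.2.1) - prim f x.1 - prim g (x.1 + x.2.1 - r * x.2.2) + prim g (x.1 - r * x.2.2)
    + r * (x.2.1 ^ 2 - x.2.2 ^ 2) / 2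

/-- its partial derivatives -/
def gt (f g : ℝ → ℝ) (r : ℝ) (x : ℝ × ℝ × ℝ) : ℝ :=
  f (x.1 + x.2.1) - f x.1 - g (x.1 + x.2.1 - r * x.2.2) + g (x.1 - r * x.2.2)

def ga (f g : ℝ → ℝ) (r : ℝ) (x : ℝ × ℝ × ℝ) : ℝ :=
  f (x.1 + x.2.1) - g (x.1 + x.2.1 - r * x.2.2) + r * x.2.1

def gb (g : ℝ → ℝ) (r : ℝ) (x : ℝ × ℝ × ℝ) : ℝ :=
  r * (g (x.1 + x.2.1 - r * x.2.2) - g (x.1 - r * x.2.2)) - r * x.2.2

theorem prim_deriv {f : ℝ → ℝ} (hf : Continuous f) (x : ℝ) : HasDerivAt (prim f) (f x) x :=
  (hf.integral_hasStrictDerivAt 0 x).hasDerivAt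

theorem act_deriv {f g : ℝ → ℝ} (hf : Continuous f) (hg : Continuous g) (r : ℝ)
    (x v : ℝ × ℝ × ℝ) (s : ℝ) : HasDerivAt (fun s : ℝ => act f g r (x - s • v))
      (-(gt f g r (x - s • v) * v.1 + ga f g r (x - s • v) * v.2.1 +
        gb g r (x - s • v) * v.2.2)) s := by
  have h1 : HasDerivAt (fun s : ℝ => (x - s • v).1) (-v.1) s := by
    simpa using ((hasDerivAt_id s).mul_const v.1).const_sub x.1
  have h2 : HasDerivAt (fun s : ℝ => (x - s • v).2.1) (-v.2.1) s := by
    simpa using ((hasDerivAt_id s).mul_const v.2.1).const_sub x.2.1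
  have h3 : HasDerivAt (fun s : ℝ => (x - s • v).2.2) (-v.2.2) s := by
    simpa using ((hasDerivAt_id s).mul_const v.2.2).const_sub x.2.2
  have k1 := (prim_deriv hf _).comp s (h1.add h2)
  have k2 := (prim_deriv hf _).comp s h1
  have k3 := (prim_deriv hg _).comp s ((h1.add h2).sub (h3.const_mul r))
  have k4 := (prim_deriv hg _).comp s (h1.sub (h3.const_mul r))
  have k5 := ((((h2.pow 2).sub (h3.pow 2)).const_mul r).div_const 2)
  have k := ((((k1.sub k2).sub k3).add k4).add k5)
  refine (k.congr_deriv ?_)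
  simp only [gt, ga, gb, Pi.add_apply, Pi.sub_apply]
  ring

theorem uc_lin (r : ℝ) : UniformContinuous (fun x : ℝ × ℝ × ℝ => r * x.2.2) :=
  (uniformContinuous_const_smul r).comp (uniformContinuous_snd.comp uniformContinuous_snd)

theorem uc_gt {f g : ℝ → ℝ} (hf : UniformContinuous f) (hg : UniformContinuous g) (r : ℝ) :
    UniformContinuous (gt f g r) := by
  have e1 : UniformContinuous (fun x : ℝ × ℝ × ℝ => x.1) := uniformContinuous_fst
  have e2 : UniformContinuous (fun x : ℝ × ℝ × ℝ => x.2.1) :=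
    uniformContinuous_fst.comp uniformContinuous_snd
  exact (((hf.comp (e1.add e2)).sub (hf.comp e1)).sub (hg.comp ((e1.add e2).sub (uc_lin r)))).add
    (hg.comp (e1.sub (uc_lin r)))

theorem uc_ga {f g : ℝ → ℝ} (hf : UniformContinuous f) (hg : UniformContinuous g) (r : ℝ) :
    UniformContinuous (ga f g r) := by
  have e1 : UniformContinuous (fun x : ℝ × ℝ × ℝ => x.1) := uniformContinuous_fst
  have e2 : UniformContinuous (fun x : ℝ × ℝ × ℝ => x.2.1) :=
    uniformContinuous_fst.comp uniformContinuous_snd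
  exact ((hf.comp (e1.add e2)).sub (hg.comp ((e1.add e2).sub (uc_lin r)))).add
    ((uniformContinuous_const_smul r).comp e2)

theorem uc_gb {g : ℝ → ℝ} (hg : UniformContinuous g) (r : ℝ) :
    UniformContinuous (gb g r) := by
  have e1 : UniformContinuous (fun x : ℝ × ℝ × ℝ => x.1) := uniformContinuous_fst
  have e2 : UniformContinuous (fun x : ℝ × ℝ × ℝ => x.2.1) :=
    uniformContinuous_fst.comp uniformContinuous_snd
  exact ((uniformContinuous_const_smul r).comp
    ((hg.comp ((e1.add e2).sub (uc_lin r))).sub (hg.comp (e1.sub (uc_lin r))))).sub (uc_lin r)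

theorem prim_sub {f : ℝ → ℝ} (hf : Continuous f) (x y : ℝ) :
    prim f y - prim f x = ∫ s in x..y, f s := by
  unfold prim
  rw [intervalIntegral.integral_interval_sub_left (hf.intervalIntegrable _ _)
    (hf.intervalIntegrable _ _)]

theorem prim_lip {f : ℝ → ℝ} (hf : Continuous f) {M : ℝ} (hM : ∀ x, |f x| ≤ M) (x y : ℝ) :
    |prim f y - prim f x| ≤ M * |y - x| := by
  rw [prim_sub hf, ← Real.norm_eq_abs]
  exact intervalIntegral.norm_integral_le_of_norm_le_const (fun s _ => hM s)

theorem prim_const {f : ℝ → ℝ} (hf : Continuous f) {c x y : ℝ} (h : ∀ s ∈ uIcc x y, f s = c) :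
    prim f y - prim f x = c * (y - x) := by
  rw [prim_sub hf, intervalIntegral.integral_congr (g := fun _ => c) h,
    intervalIntegral.integral_const, smul_eq_mul, mul_comm]

theorem prim_le {f : ℝ → ℝ} (hf : Continuous f) {c x y : ℝ} (hxy : x ≤ y)
    (h : ∀ s ∈ Icc x y, f s ≤ c) : prim f y - prim f x ≤ c * (y - x) := by
  rw [prim_sub hf]
  have := intervalIntegral.integral_mono_on hxy (hf.intervalIntegrable x y)
    (continuous_const.intervalIntegrable (μ := volume) (u := fun _ : ℝ => c) x y) h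
  rw [intervalIntegral.integral_const, smul_eq_mul, mul_comm] at this
  exact this

theorem le_prim {f : ℝ → ℝ} (hf : Continuous f) {c x y : ℝ} (hxy : x ≤ y)
    (h : ∀ s ∈ Icc x y, c ≤ f s) : c * (y - x) ≤ prim f y - prim f x := by
  rw [prim_sub hf]
  have := intervalIntegral.integral_mono_on hxy
    (continuous_const.intervalIntegrable (μ := volume) (u := fun _ : ℝ => c) x y)
    (hf.intervalIntegrable x y) h
  rw [intervalIntegral.integral_const, smul_eq_mul, mul_comm] at this
  exact this

/-- the two functions: uniformly continuous, equal constants on both sides of `[0,1]`, and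
`f < g` inside. -/
structure Pair (f g : ℝ → ℝ) (c0 c1 M : ℝ) : Prop where
  uf : UniformContinuous f
  ug : UniformContinuous g
  f0 : ∀ x ≤ 0, f x = c0
  g0 : ∀ x ≤ 0, g x = c0
  f1 : ∀ x, 1 ≤ x → f x = c1
  g1 : ∀ x, 1 ≤ x → g x = c1
  bf : ∀ x, |f x| ≤ M
  bg : ∀ x, |g x| ≤ M
  lt : ∀ x, 0 < x → x < 1 → f x < g x

variable {f g : ℝ → ℝ} {c0 c1 M r : ℝ}

theorem Pair.lower (h : Pair f g c0 c1 M) (hr : 0 < r) (t a : ℝ) :
    -(2 * M ^ 2 / r) ≤ act f g r (t, a, 0) := by
  have hf := h.uf.continuous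
  have hg := h.ug.continuous
  simp only [act, mul_zero, sub_zero]
  have h1 := (abs_le.1 (prim_lip hf h.bf t (t + a))).1
  have h2 := (abs_le.1 (prim_lip hg h.bg t (t + a))).2
  have h3 : t + a - t = a := by ring
  rw [h3] at h1 h2
  have h4 : 0 ≤ (r * |a| - 2 * M) ^ 2 / (2 * r) := by positivity
  have h5 : (r * |a| - 2 * M) ^ 2 / (2 * r) = r * a ^ 2 / 2 - 2 * M * |a| + 2 * M ^ 2 / r := by
    rw [← sq_abs a]; field_simp; ring
  rw [h5] at h4
  nlinarith

/-- the initial path -/
theorem Pair.path (h : Pair f g c0 c1 M) (hr : 0 < r) : ∃ δ0 > 0, ∃ σ : ℝ → ℝ × ℝ × ℝ,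
    Continuous σ ∧ (∀ b, (σ b).2.2 = b) ∧ ∀ b, act f g r (σ b) ≤ -δ0 := by
  have hf := h.uf.continuous
  have hg := h.ug.continuous
  set t0 : ℝ := 1 / 2 with ht0
  set d := g t0 - f t0 with hd
  have hd0 : 0 < d := by
    have := h.lt t0 (by norm_num [ht0]) (by norm_num [ht0])
    linarith
  obtain ⟨ρ1, hρ1, h1⟩ := Metric.continuousAt_iff.1 (hf.continuousAt (x := t0)) (d / 4) (by positivity)
  obtain ⟨ρ2, hρ2, h2⟩ := Metric.continuousAt_iff.1 (hg.continuousAt (x := t0)) (d / 4) (by positivity)
  set ρ := min ρ1 ρ2 with hρ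
  have hρ0 : 0 < ρ := lt_min hρ1 hρ2
  have k1 : ∀ y, |y - t0| < ρ → f y ≤ f t0 + d / 4 := by
    intro y hy
    have := h1 (x := y) (by rw [Real.dist_eq]; exact hy.trans_le (min_le_left _ _))
    rw [Real.dist_eq] at this
    linarith [(abs_lt.1 this).2]
  have k2 : ∀ y, |y - t0| < ρ → g t0 - d / 4 ≤ g y := by
    intro y hy
    have := h2 (x := y) (by rw [Real.dist_eq]; exact hy.trans_le (min_le_right _ _))
    rw [Real.dist_eq] at this
    linarith [(abs_lt.1 this).1]
  set a0 := min (ρ / 4) (d / (2 * r)) with ha0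
  have ha0p : 0 < a0 := lt_min (by positivity) (by positivity)
  have ha01 : a0 ≤ ρ / 4 := min_le_left _ _
  have ha02 : a0 ≤ d / (2 * r) := min_le_right _ _
  set β := ρ / (4 * r) with hβ
  have hβ0 : 0 < β := by positivity
  have hβr : r * β = ρ / 4 := by rw [hβ]; field_simp
  -- estimate
  have key : ∀ a b, 0 ≤ a → a ≤ a0 → (|b| ≤ β ∨ a = 0) →
      act f g r (t0, a, b) ≤ -(a * (d / 4)) - r * b ^ 2 / 2 := by
    intro a b ha haa hb
    rcases hb with hb | hb
    · have hrb : |r * b| ≤ ρ / 4 := by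
        rw [abs_mul, abs_of_pos hr, ← hβr]
        exact mul_le_mul_of_nonneg_left hb hr.le
      rw [abs_le] at hrb
      simp only [act]
      have e1 := prim_le hf (c := f t0 + d / 4) (x := t0) (y := t0 + a) (by linarith)
        (fun s hs => k1 s (by rw [abs_lt]; constructor <;> linarith [hs.1, hs.2]))
      have e2 := le_prim hg (c := g t0 - d / 4) (x := t0 - r * b) (y := t0 + a - r * b)
        (by linarith)
        (fun s hs => k2 s (by rw [abs_lt]; constructor <;> linarith [hs.1, hs.2]))
      have e3 : t0 + a - t0 = a := by ring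
      have e4 : t0 + a - r * b - (t0 - r * b) = a := by ring
      rw [e3] at e1
      rw [e4] at e2
      have e5 : r * a ^ 2 / 2 ≤ a * (d / 4) := by
        have : r * a ≤ d / 2 := by
          have h6 : r * a ≤ r * (d / (2 * r)) := mul_le_mul_of_nonneg_left (haa.trans ha02) hr.le
          have h7 : r * (d / (2 * r)) = d / 2 := by field_simp
          linarith
        nlinarith
      have e6 : (f t0 + d / 4) * a - (g t0 - d / 4) * a = -(a * (d / 2)) := by rw [hd]; ring
      nlinarith
    · subst hb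
      simp only [act]
      have e1 : t0 + 0 = t0 := by ring
      rw [e1]
      nlinarith
  set A : ℝ → ℝ := fun b => a0 * max 0 (1 - |b| / β) with hA
  have hAc : Continuous A := by
    simp only [hA]
    fun_prop
  refine ⟨min (a0 * d / 8) (r * β ^ 2 / 8), lt_min (by positivity) (by positivity),
    fun b => (t0, A b, b), continuous_const.prodMk (hAc.prodMk continuous_id), fun b => rfl, ?_⟩
  intro b
  have hA0 : 0 ≤ A b := by simp only [hA]; positivity
  have hA1 : A b ≤ a0 := by
    simp only [hA]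
    have : max 0 (1 - |b| / β) ≤ 1 := max_le zero_le_one (by
      have : 0 ≤ |b| / β := by positivity
      linarith)
    nlinarith
  have hcase : |b| ≤ β ∨ A b = 0 := by
    rcases le_or_gt |b| β with hb | hb
    · exact Or.inl hb
    · right
      simp only [hA]
      have : 1 - |b| / β ≤ 0 := by
        have : 1 ≤ |b| / β := by rw [le_div_iff₀ hβ0]; linarith
        linarith
      rw [max_eq_left this, mul_zero]
  have h3 := key (A b) b hA0 hA1 hcase
  simp only
  rcases le_or_gt |b| (β / 2) with hb | hb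
  · have h4 : a0 / 2 ≤ A b := by
      simp only [hA]
      have h5 : |b| / β ≤ 1 / 2 := by rw [div_le_iff₀ hβ0]; linarith
      have h6 : 1 / 2 ≤ max 0 (1 - |b| / β) := le_max_of_le_right (by linarith)
      nlinarith
    have h5 := min_le_left (a0 * d / 8) (r * β ^ 2 / 8)
    have h6 : 0 ≤ r * b ^ 2 / 2 := by positivity
    nlinarith
  · have h5 := min_le_right (a0 * d / 8) (r * β ^ 2 / 8)
    have h6 : (β / 2) ^ 2 ≤ b ^ 2 := by
      rw [← sq_abs b]
      nlinarith [abs_nonneg b]
    have h7 : 0 ≤ A b * (d / 4) := by positivity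
    nlinarith

/-- Palais–Smale: almost critical points below the level `-δ0` lie in a compact set -/
theorem Pair.compact (h : Pair f g c0 c1 M) (hr : 0 < r) {δ0 : ℝ} (hδ : 0 < δ0)
    (hno : ∀ x, act f g r x ≤ -δ0 → ¬ (gt f g r x = 0 ∧ ga f g r x = 0 ∧ gb g r x = 0)) :
    ∃ ε0 > 0, ∀ x, act f g r x ≤ -δ0 →
      ε0 ≤ |gt f g r x| + |ga f g r x| + |gb g r x| := by
  have hf := h.uf.continuous
  have hg := h.ug.continuous
  have hM0 : 0 ≤ M := (abs_nonneg _).trans (h.bf 0)
  set ε1 := min 1 (Real.sqrt (r * δ0)) with hε1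
  have hε1p : 0 < ε1 := lt_min one_pos (Real.sqrt_pos.2 (by positivity))
  have hε11 : ε1 ≤ 1 := min_le_left _ _
  have hε12 : ε1 ^ 2 ≤ r * δ0 := by
    have h1 : ε1 ≤ Real.sqrt (r * δ0) := min_le_right _ _
    calc ε1 ^ 2 ≤ (Real.sqrt (r * δ0)) ^ 2 := by gcongr
      _ = r * δ0 := Real.sq_sqrt (by positivity)
  set Ra := (2 * M + 1) / r with hRa
  set Rb := 2 * M + 1 / r with hRb
  have hRa0 : 0 ≤ Ra := by positivity
  have hRb0 : 0 ≤ Rb := by positivity
  set R := 1 + Ra + r * Rb with hR
  have hrRb : 0 ≤ r * Rb := by positivity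
  set K : Set (ℝ × ℝ × ℝ) := Icc (-R) R ×ˢ (Icc (-Ra) Ra ×ˢ Icc (-Rb) Rb) with hK
  have hKc : IsCompact K := isCompact_Icc.prod (isCompact_Icc.prod isCompact_Icc)
  have hmem : ∀ x, act f g r x ≤ -δ0 →
      |gt f g r x| + |ga f g r x| + |gb g r x| < ε1 → x ∈ K := by
    rintro ⟨t, a, b⟩ hE hN
    have n1 : |ga f g r (t, a, b)| < ε1 := by
      have := abs_nonneg (gt f g r (t, a, b)); have := abs_nonneg (gb g r (t, a, b)); linarith
    have n2 : |gb g r (t, a, b)| < ε1 := by
      have := abs_nonneg (gt f g r (t, a, b)); have := abs_nonneg (ga f g r (t, a, b)); linarith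
    have ha : |a| ≤ Ra := by
      rw [hRa, le_div_iff₀ hr]
      have h1 := abs_le.1 (h.bf (t + a))
      have h2 := abs_le.1 (h.bg (t + a - r * b))
      simp only [ga] at n1
      rw [abs_lt] at n1
      have : |a| * r = |r * a| := by rw [abs_mul, abs_of_pos hr, mul_comm]
      rw [this, abs_le]
      constructor <;> linarith
    have hb : |b| ≤ Rb := by
      have h1 := abs_le.1 (h.bg (t + a - r * b))
      have h2 := abs_le.1 (h.bg (t - r * b))
      simp only [gb] at n2
      rw [abs_lt] at n2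
      have h3 : |r * b| ≤ r * Rb := by
        have h4 : r * Rb = 2 * (r * M) + 1 := by rw [hRb]; field_simp
        have h5 : r * (g (t + a - r * b) - g (t - r * b)) ≤ r * (2 * M) :=
          mul_le_mul_of_nonneg_left (by linarith) hr.le
        have h6 : r * (-(2 * M)) ≤ r * (g (t + a - r * b) - g (t - r * b)) :=
          mul_le_mul_of_nonneg_left (by linarith) hr.le
        rw [h4, abs_le]
        constructor <;> linarith
      rw [abs_mul, abs_of_pos hr] at h3
      exact le_of_mul_le_mul_left h3 hr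
    have hrb : |r * b| ≤ r * Rb := by
      rw [abs_mul, abs_of_pos hr]; exact mul_le_mul_of_nonneg_left hb hr.le
    have ha' := abs_le.1 ha
    have hb' := abs_le.1 hb
    have hrb' := abs_le.1 hrb
    -- the action is close to zero far away
    have hfar : ∀ c, (∀ s ∈ uIcc t (t + a), f s = c) →
        (∀ s ∈ uIcc (t - r * b) (t + a - r * b), g s = c) → False := by
      intro c hc1 hc2
      have e1 := prim_const hf hc1
      have e2 := prim_const hg hc2
      have e3 : gb g r (t, a, b) = - (r * b) := by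
        simp only [gb]
        rw [hc2 _ left_mem_uIcc, hc2 _ right_mem_uIcc]; ring
      rw [e3, abs_neg] at n2
      have e4 : act f g r (t, a, b) = r * (a ^ 2 - b ^ 2) / 2 := by
        simp only [act]
        have : t + a - t = a := by ring
        rw [this] at e1
        have : t + a - r * b - (t - r * b) = a := by ring
        rw [this] at e2
        linarith
      rw [e4] at hE
      have e5 : (r * b) ^ 2 < r * δ0 := by
        rw [← sq_abs]
        nlinarith [abs_nonneg (r * b)]
      have e6 : r * b ^ 2 < δ0 := by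
        have : r * (r * b ^ 2) < r * δ0 := by nlinarith
        exact lt_of_mul_lt_mul_left this hr.le
      have : 0 ≤ r * a ^ 2 := by positivity
      nlinarith
    refine ⟨?_, abs_le.1 ha, abs_le.1 hb⟩
    by_contra hcon
    rw [mem_Icc, not_and_or] at hcon
    simp only [not_le] at hcon
    rcases hcon with hcon | hcon
    · refine hfar c0 (fun s hs => h.f0 s ?_) (fun s hs => h.g0 s ?_)
      · rw [mem_uIcc] at hs
        rcases hs with hs | hs <;> linarith [hs.1, hs.2]
      · rw [mem_uIcc] at hs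
        rcases hs with hs | hs <;> linarith [hs.1, hs.2]
    · refine hfar c1 (fun s hs => h.f1 s ?_) (fun s hs => h.g1 s ?_)
      · rw [mem_uIcc] at hs
        rcases hs with hs | hs <;> linarith [hs.1, hs.2]
      · rw [mem_uIcc] at hs
        rcases hs with hs | hs <;> linarith [hs.1, hs.2]
  have hEc : Continuous (act f g r) := by
    have hF : Continuous (prim f) := continuous_iff_continuousAt.2
      (fun x => (prim_deriv hf x).continuousAt)
    have hG : Continuous (prim g) := continuous_iff_continuousAt.2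
      (fun x => (prim_deriv hg x).continuousAt)
    unfold act
    fun_prop
  have hNc : Continuous (fun x => |gt f g r x| + |ga f g r x| + |gb g r x|) :=
    (((uc_gt h.uf h.ug r).continuous.abs).add ((uc_ga h.uf h.ug r).continuous.abs)).add
      ((uc_gb h.ug r).continuous.abs)
  have hSc : IsCompact (K ∩ {x | act f g r x ≤ -δ0}) :=
    hKc.inter_right (isClosed_le hEc continuous_const)
  rcases (K ∩ {x | act f g r x ≤ -δ0}).eq_empty_or_nonempty with he | hne
  · refine ⟨ε1, hε1p, fun x hx => ?_⟩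
    by_contra hcon
    push Not at hcon
    have : x ∈ K ∩ {x | act f g r x ≤ -δ0} := ⟨hmem x hx hcon, hx⟩
    rw [he] at this
    exact this
  · obtain ⟨x0, hx0, hmin⟩ := hSc.exists_isMinOn hne hNc.continuousOn
    have hpos : 0 < |gt f g r x0| + |ga f g r x0| + |gb g r x0| := by
      by_contra hcon
      have a1 := abs_nonneg (gt f g r x0)
      have a2 := abs_nonneg (ga f g r x0)
      have a3 := abs_nonneg (gb g r x0)
      exact hno x0 hx0.2 ⟨abs_eq_zero.1 (by linarith), abs_eq_zero.1 (by linarith),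
        abs_eq_zero.1 (by linarith)⟩
    refine ⟨min ε1 (|gt f g r x0| + |ga f g r x0| + |gb g r x0|), lt_min hε1p hpos,
      fun x hx => ?_⟩
    by_cases hc : |gt f g r x| + |ga f g r x| + |gb g r x| < ε1
    · exact (min_le_right _ _).trans (hmin ⟨hmem x hx hc, hx⟩)
    · push Not at hc
      exact (min_le_left _ _).trans hc

/-- **Existence of rectangles.** -/
theorem Pair.exists_rect (h : Pair f g c0 c1 M) (hr : 0 < r) : ∃ t a b : ℝ,
    ¬ (a = 0 ∧ b = 0) ∧ f (t + a) - f t = b ∧ g (t + a - r * b) - g (t - r * b) = b ∧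
      g (t + a - r * b) - f (t + a) = r * a := by
  obtain ⟨δ0, hδ, σ, hσ, hσb, hσE⟩ := h.path hr
  by_contra hcon
  push Not at hcon
  obtain ⟨ε0, hε0, hN⟩ := h.compact hr hδ (by
    rintro ⟨t, a, b⟩ hE ⟨h1, h2, h3⟩
    simp only [gt] at h1
    simp only [ga] at h2
    simp only [gb] at h3
    have h4 : g (t + a - r * b) - g (t - r * b) = b := by
      have : r * (g (t + a - r * b) - g (t - r * b) - b) = 0 := by linarith
      rcases mul_eq_zero.1 this with h5 | h5
      · exact absurd h5 hr.ne'
      · linarith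
    refine hcon t a b ?_ (by linarith) h4 (by linarith)
    intro ha0 hb0
    rw [ha0, hb0] at hE
    simp only [act] at hE
    norm_num at hE
    linarith)
  exact mountain (act f g r) (gt f g r) (ga f g r) (gb g r)
    (act_deriv h.uf.continuous h.ug.continuous r) (uc_gt h.uf h.ug r) (uc_ga h.uf h.ug r)
    (uc_gb h.ug r) hε0 hN (h.lower hr) hσ hσb hσE

/-- From the endpoint `A` (for `x < 0`: from the ray left of `A`) a point of the first graph and
a point of the second are never seen under a right angle. -/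
theorem Pair.left (h : Pair f g c0 c1 M)
    (hA : ∀ u v : ℝ, 0 ≤ u → 0 ≤ v → 0 ≤ u * v + (f u - c0) * (g v - c0)) {x u v : ℝ}
    (hx : x < 0) (he : (u - x) * (v - x) + (f u - c0) * (g v - c0) = 0) : u = x ∨ v = x := by
  rcases lt_or_ge u 0 with hu | hu
  · rw [h.f0 u hu.le, sub_self, zero_mul, add_zero] at he
    rcases mul_eq_zero.1 he with h1 | h1
    · left; linarith
    · right; linarith
  rcases lt_or_ge v 0 with hv | hv
  · rw [h.g0 v hv.le, sub_self, mul_zero, add_zero] at he
    rcases mul_eq_zero.1 he with h1 | h1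
    · left; linarith
    · right; linarith
  have := hA u v hu hv
  exfalso
  nlinarith [mul_nonneg hu hv, mul_nonneg hu (by linarith : 0 ≤ -x),
    mul_nonneg hv (by linarith : 0 ≤ -x), mul_pos (by linarith : 0 < -x) (by linarith : 0 < -x)]

theorem Pair.right (h : Pair f g c0 c1 M)
    (hB : ∀ u v : ℝ, u ≤ 1 → v ≤ 1 → 0 ≤ (1 - u) * (1 - v) + (f u - c1) * (g v - c1)) {x u v : ℝ}
    (hx : 1 < x) (he : (u - x) * (v - x) + (f u - c1) * (g v - c1) = 0) : u = x ∨ v = x := by
  rcases lt_or_ge 1 u with hu | hu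
  · rw [h.f1 u hu.le, sub_self, zero_mul, add_zero] at he
    rcases mul_eq_zero.1 he with h1 | h1
    · left; linarith
    · right; linarith
  rcases lt_or_ge 1 v with hv | hv
  · rw [h.g1 v hv.le, sub_self, mul_zero, add_zero] at he
    rcases mul_eq_zero.1 he with h1 | h1
    · left; linarith
    · right; linarith
  have := hB u v hu hv
  exfalso
  nlinarith [mul_nonneg (by linarith : 0 ≤ 1 - u) (by linarith : 0 ≤ 1 - v),
    mul_nonneg (by linarith : 0 ≤ 1 - u) (by linarith : 0 ≤ x - 1),
    mul_nonneg (by linarith : 0 ≤ 1 - v) (by linarith : 0 ≤ x - 1),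
    mul_pos (by linarith : 0 < x - 1) (by linarith : 0 < x - 1)]

/-- **Rectangles with all vertices over `[0,1]`.** -/
theorem Pair.exists_rect_in (h : Pair f g c0 c1 M) (hr : 0 < r)
    (hA : ∀ u v : ℝ, 0 ≤ u → 0 ≤ v → 0 ≤ u * v + (f u - c0) * (g v - c0))
    (hB : ∀ u v : ℝ, u ≤ 1 → v ≤ 1 → 0 ≤ (1 - u) * (1 - v) + (f u - c1) * (g v - c1)) :
    ∃ t a b : ℝ, ¬ (a = 0 ∧ b = 0) ∧
      (t ∈ Icc (0 : ℝ) 1 ∧ t + a ∈ Icc (0 : ℝ) 1 ∧ t + a - r * b ∈ Icc (0 : ℝ) 1 ∧
        t - r * b ∈ Icc (0 : ℝ) 1) ∧
      f (t + a) = f t + b ∧ g (t + a - r * b) = f t + b + r * a ∧ g (t - r * b) = f t + r * a := by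
  obtain ⟨t, a, b, hab, e1, e2, e3⟩ := h.exists_rect hr
  have y2 : f (t + a) = f t + b := by linarith
  have y3 : g (t + a - r * b) = f t + b + r * a := by linarith
  have y4 : g (t - r * b) = f t + r * a := by linarith
  -- coincidences of neighbouring vertices are impossible
  have ra0 : r * a = 0 → a = 0 := fun h1 => (mul_eq_zero.1 h1).resolve_left hr.ne'
  have rb0 : r * b = 0 → b = 0 := fun h1 => (mul_eq_zero.1 h1).resolve_left hr.ne'
  have n12 : t = t + a → a = 0 ∧ b = 0 := by
    intro h1
    rw [← h1] at y2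
    exact ⟨by linarith, by linarith⟩
  have n43 : t - r * b = t + a - r * b → a = 0 ∧ b = 0 := by
    intro h1
    rw [← h1] at y3
    exact ⟨by linarith, by linarith⟩
  have n14 : t = t - r * b → (t < 0 ∨ 1 < t) → a = 0 ∧ b = 0 := by
    intro h1 h2
    rw [← h1] at y4
    have : f t = g t := by
      rcases h2 with h2 | h2
      · rw [h.f0 t h2.le, h.g0 t h2.le]
      · rw [h.f1 t h2.le, h.g1 t h2.le]
    exact ⟨ra0 (by linarith), rb0 (by linarith)⟩
  have n23 : t + a = t + a - r * b → (t + a < 0 ∨ 1 < t + a) → a = 0 ∧ b = 0 := by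
    intro h1 h2
    rw [← h1] at y3
    have : f (t + a) = g (t + a) := by
      rcases h2 with h2 | h2
      · rw [h.f0 _ h2.le, h.g0 _ h2.le]
      · rw [h.f1 _ h2.le, h.g1 _ h2.le]
    exact ⟨ra0 (by linarith), rb0 (by linarith)⟩
  refine ⟨t, a, b, hab, ⟨?_, ?_, ?_, ?_⟩, y2, y3, y4⟩
  · by_contra hcon
    rw [mem_Icc, not_and_or] at hcon
    simp only [not_le] at hcon
    have : t + a = t ∨ t - r * b = t := by
      rcases hcon with hx | hx
      · refine h.left hA hx ?_
        rw [y2, y4, h.f0 t hx.le]; ring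
      · refine h.right hB hx ?_
        rw [y2, y4, h.f1 t hx.le]; ring
    rcases this with h1 | h1
    · exact hab (n12 h1.symm)
    · exact hab (n14 h1.symm hcon)
  · by_contra hcon
    rw [mem_Icc, not_and_or] at hcon
    simp only [not_le] at hcon
    have : t = t + a ∨ t + a - r * b = t + a := by
      rcases hcon with hx | hx
      · refine h.left hA hx ?_
        have := h.f0 (t + a) hx.le
        rw [y3, show f t = c0 - b by linarith]; ring
      · refine h.right hB hx ?_
        have := h.f1 (t + a) hx.le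
        rw [y3, show f t = c1 - b by linarith]; ring
    rcases this with h1 | h1
    · exact hab (n12 h1)
    · exact hab (n23 h1.symm hcon)
  · by_contra hcon
    rw [mem_Icc, not_and_or] at hcon
    simp only [not_le] at hcon
    have : t + a = t + a - r * b ∨ t - r * b = t + a - r * b := by
      rcases hcon with hx | hx
      · refine h.left hA hx ?_
        have := h.g0 (t + a - r * b) hx.le
        rw [y2, y4, show f t = c0 - b - r * a by linarith]; ring
      · refine h.right hB hx ?_
        have := h.g1 (t + a - r * b) hx.le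
        rw [y2, y4, show f t = c1 - b - r * a by linarith]; ring
    rcases this with h1 | h1
    · have hb0 : b = 0 := rb0 (by linarith)
      rw [hb0] at y3 hcon
      rw [mul_zero, sub_zero] at hcon y3
      refine hab (n23 h1 hcon)
    · exact hab (n43 h1)
  · by_contra hcon
    rw [mem_Icc, not_and_or] at hcon
    simp only [not_le] at hcon
    have : t = t - r * b ∨ t + a - r * b = t - r * b := by
      rcases hcon with hx | hx
      · refine h.left hA hx ?_
        have := h.g0 (t - r * b) hx.le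
        rw [y3, show f t = c0 - r * a by linarith]; ring
      · refine h.right hB hx ?_
        have := h.g1 (t - r * b) hx.le
        rw [y3, show f t = c1 - r * a by linarith]; ring
    rcases this with h1 | h1
    · have hb0 : b = 0 := rb0 (by linarith)
      rw [hb0] at hcon
      rw [mul_zero, sub_zero] at hcon
      exact hab (n14 h1 hcon)
    · exact hab (n43 h1.symm)

end H593R2
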