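import Mathlib

/-! An elementary mountain pass lemma in `ℝ³`. -/

open Set Filter Topology

namespace H593R2

theorem step_aux {ε0 p q w p' q' w' : ℝ} (hε : 0 < ε0) (hN : ε0 ≤ |p| + |q| + |w|)
    (h1 : |p' - p| < ε0 / 6) (h2 : |q' - q| < ε0 / 6) (h3 : |w' - w| < ε0 / 6) :
    ε0 ^ 2 / (6 * (1 + ε0)) ≤ (p' * p + q' * q + w' * w) / (1 + (|p| + |q| + |w|)) := by
  have hprod : ∀ a b : ℝ, |a - b| < ε0 / 6 → b ^ 2 - ε0 / 6 * |b| ≤ a * b := by
    intro a b hab
    have h1 : |(a - b) * b| ≤ ε0 / 6 * |b| := by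
      rw [abs_mul]; exact mul_le_mul_of_nonneg_right hab.le (abs_nonneg b)
    have h2 := (abs_le.1 h1).1
    nlinarith
  have k1 := hprod _ _ h1
  have k2 := hprod _ _ h2
  have k3 := hprod _ _ h3
  have e1 := sq_abs p
  have e2 := sq_abs q
  have e3 := sq_abs w
  set P := |p|
  set Q := |q|
  set W := |w|
  set N := P + Q + W with hNd
  have hsq : N ^ 2 / 3 ≤ p ^ 2 + q ^ 2 + w ^ 2 := by
    rw [← e1, ← e2, ← e3, hNd]
    nlinarith [sq_nonneg (P - Q), sq_nonneg (P - W), sq_nonneg (Q - W)]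
  have hN0 : 0 < N := by linarith
  have hsum : N * (N / 6) ≤ p' * p + q' * q + w' * w := by
    have h1 : N ^ 2 / 3 - ε0 / 6 * N ≤ p' * p + q' * q + w' * w := by
      have : ε0 / 6 * N = ε0 / 6 * P + ε0 / 6 * Q + ε0 / 6 * W := by rw [hNd]; ring
      linarith
    have h4 : ε0 / 6 * N ≤ N / 6 * N := by
      apply mul_le_mul_of_nonneg_right _ hN0.le
      linarith
    nlinarith
  rw [div_le_div_iff₀ (by positivity) (by positivity)]
  have h3 : ε0 ^ 2 * (1 + N) ≤ N * (N / 6) * (6 * (1 + ε0)) := by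
    have h4 : N * (N / 6) * (6 * (1 + ε0)) = N ^ 2 + N ^ 2 * ε0 := by ring
    rw [h4]
    have h5 : ε0 ^ 2 ≤ N ^ 2 := by nlinarith
    have h6 : ε0 ^ 2 * N ≤ N ^ 2 * ε0 := by
      have : ε0 * (ε0 * N) ≤ N * (ε0 * N) :=
        mul_le_mul_of_nonneg_right hN (mul_nonneg hε.le hN0.le)
      nlinarith
    nlinarith
  refine h3.trans ?_
  exact mul_le_mul_of_nonneg_right hsum (by positivity)

theorem mountain (E p q w : ℝ × ℝ × ℝ → ℝ)
    (hd : ∀ (x v : ℝ × ℝ × ℝ) (s : ℝ), HasDerivAt (fun s : ℝ => E (x - s • v))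
      (-(p (x - s • v) * v.1 + q (x - s • v) * v.2.1 + w (x - s • v) * v.2.2)) s)
    (hp : UniformContinuous p) (hq : UniformContinuous q) (hw : UniformContinuous w)
    {δ0 ε0 m : ℝ} (hε : 0 < ε0)
    (hN : ∀ x, E x ≤ -δ0 → ε0 ≤ |p x| + |q x| + |w x|)
    (hm : ∀ t a, m ≤ E (t, a, 0))
    {σ : ℝ → ℝ × ℝ × ℝ} (hσ : Continuous σ) (hσb : ∀ b, (σ b).2.2 = b)
    (hσE : ∀ b, E (σ b) ≤ -δ0) : False := by
  -- modulus of continuity
  obtain ⟨η1, hη1, hp'⟩ := Metric.uniformContinuous_iff.1 hp (ε0 / 6) (by positivity)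
  obtain ⟨η2, hη2, hq'⟩ := Metric.uniformContinuous_iff.1 hq (ε0 / 6) (by positivity)
  obtain ⟨η3, hη3, hw'⟩ := Metric.uniformContinuous_iff.1 hw (ε0 / 6) (by positivity)
  set η := min η1 (min η2 η3) / 2 with hηdef
  have hmin : 0 < min η1 (min η2 η3) := lt_min hη1 (lt_min hη2 hη3)
  have hη : 0 < η := by positivity
  have hηlt : η < min η1 (min η2 η3) := by rw [hηdef]; linarith
  set N : ℝ × ℝ × ℝ → ℝ := fun x => |p x| + |q x| + |w x| with hNdef
  have hN0 : ∀ x, 0 ≤ N x := fun x => by simp only [hNdef]; positivity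
  set v : ℝ × ℝ × ℝ → ℝ × ℝ × ℝ := fun x => (1 + N x)⁻¹ • (p x, q x, w x) with hvdef
  set κ := η * (ε0 ^ 2 / (6 * (1 + ε0))) with hκdef
  have hκ : 0 < κ := by positivity
  have hv1 : ∀ x, |(v x).1| ≤ 1 := by
    intro x
    simp only [hvdef, Prod.smul_fst, smul_eq_mul, abs_mul, abs_inv]
    rw [abs_of_pos (by linarith [hN0 x] : 0 < 1 + N x), inv_mul_le_iff₀ (by linarith [hN0 x])]
    simp only [hNdef]
    have := abs_nonneg (q x); have := abs_nonneg (w x)
    linarith
  have hv2 : ∀ x, |(v x).2.1| ≤ 1 := by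
    intro x
    simp only [hvdef, Prod.smul_fst, Prod.smul_snd, smul_eq_mul, abs_mul, abs_inv]
    rw [abs_of_pos (by linarith [hN0 x] : 0 < 1 + N x), inv_mul_le_iff₀ (by linarith [hN0 x])]
    simp only [hNdef]
    have := abs_nonneg (p x); have := abs_nonneg (w x)
    linarith
  have hv3 : ∀ x, |(v x).2.2| ≤ 1 := by
    intro x
    simp only [hvdef, Prod.smul_snd, smul_eq_mul, abs_mul, abs_inv]
    rw [abs_of_pos (by linarith [hN0 x] : 0 < 1 + N x), inv_mul_le_iff₀ (by linarith [hN0 x])]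
    simp only [hNdef]
    have := abs_nonneg (p x); have := abs_nonneg (q x)
    linarith
  have hpc := hp.continuous
  have hqc := hq.continuous
  have hwc := hw.continuous
  have hNc : Continuous N := by simp only [hNdef]; fun_prop
  have hvc : Continuous v := by
    simp only [hvdef]
    have h1 : Continuous (fun x => 1 + N x) := continuous_const.add hNc
    refine Continuous.smul (h1.inv₀ (fun x => ?_)) (hpc.prodMk (hqc.prodMk hwc))
    exact (by linarith [hN0 x] : (0 : ℝ) < 1 + N x).ne'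
  -- the step
  have hstep : ∀ x, E x ≤ -δ0 → E (x - η • v x) ≤ E x - κ := by
    intro x hx
    have hNx := hN x hx
    obtain ⟨s, hs, hs'⟩ := exists_hasDerivAt_eq_slope (fun s : ℝ => E (x - s • v x))
      (fun s => -(p (x - s • v x) * (v x).1 + q (x - s • v x) * (v x).2.1 +
        w (x - s • v x) * (v x).2.2)) hη
      (fun s _ => (hd x (v x) s).continuousAt.continuousWithinAt)
      (fun s _ => hd x (v x) s)
    simp only [zero_smul, sub_zero] at hs'
    have hdist : dist (x - s • v x) x < min η1 (min η2 η3) := by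
      refine lt_of_le_of_lt ?_ hηlt
      rw [dist_eq_norm, show x - s • v x - x = -(s • v x) by abel, norm_neg, norm_smul,
        Real.norm_eq_abs, abs_of_pos hs.1]
      have : ‖v x‖ ≤ 1 := by
        rw [Prod.norm_def, Prod.norm_def]
        simp only [Real.norm_eq_abs]
        exact max_le (hv1 x) (max_le (hv2 x) (hv3 x))
      nlinarith [hs.1, hs.2, norm_nonneg (v x)]
    have d1 := hp' (lt_of_lt_of_le hdist (min_le_left _ _))
    have d2 := hq' (lt_of_lt_of_le hdist ((min_le_right _ _).trans (min_le_left _ _)))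
    have d3 := hw' (lt_of_lt_of_le hdist ((min_le_right _ _).trans (min_le_right _ _)))
    rw [Real.dist_eq] at d1 d2 d3
    have hEe : E (x - η • v x) = E x - η * (p (x - s • v x) * (v x).1 +
        q (x - s • v x) * (v x).2.1 + w (x - s • v x) * (v x).2.2) := by
      rw [eq_div_iff hη.ne'] at hs'
      linarith
    rw [hEe, hκdef]
    have hkey : ε0 ^ 2 / (6 * (1 + ε0)) ≤ p (x - s • v x) * (v x).1 +
        q (x - s • v x) * (v x).2.1 + w (x - s • v x) * (v x).2.2 := by
      have e1 : (v x).1 = (1 + N x)⁻¹ * p x := rfl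
      have e2 : (v x).2.1 = (1 + N x)⁻¹ * q x := rfl
      have e3 : (v x).2.2 = (1 + N x)⁻¹ * w x := rfl
      rw [e1, e2, e3]
      have hpos : 0 < 1 + N x := by linarith [hN0 x]
      have : p (x - s • v x) * ((1 + N x)⁻¹ * p x) + q (x - s • v x) * ((1 + N x)⁻¹ * q x) +
          w (x - s • v x) * ((1 + N x)⁻¹ * w x) = (p (x - s • v x) * p x +
          q (x - s • v x) * q x + w (x - s • v x) * w x) / (1 + N x) := by
        rw [div_eq_inv_mul]; ring
      rw [this]
      exact step_aux hε hNx d1 d2 d3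
    have := mul_le_mul_of_nonneg_left hkey hη.le
    linarith
  -- iterate
  set Φ : ℝ × ℝ × ℝ → ℝ × ℝ × ℝ := fun x => x - η • v x with hΦ
  have hΦc : Continuous Φ := by simp only [hΦ]; fun_prop
  have hiter : ∀ n : ℕ, ∀ x, E x ≤ -δ0 → E (Φ^[n] x) ≤ E x - n * κ := by
    intro n
    induction n with
    | zero => intro x hx; simp
    | succ n ih =>
      intro x hx
      rw [Function.iterate_succ_apply']
      have h1 := ih x hx
      have hnκ : 0 ≤ n * κ := by positivity
      have h2 := hstep (Φ^[n] x) (by linarith)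
      have h3 : E (Φ (Φ^[n] x)) ≤ E (Φ^[n] x) - κ := h2
      push_cast
      linarith
  have hdisp : ∀ n : ℕ, ∀ x, |(Φ^[n] x).2.2 - x.2.2| ≤ n * η := by
    intro n
    induction n with
    | zero => intro x; simp
    | succ n ih =>
      intro x
      rw [Function.iterate_succ_apply']
      have h1 := ih x
      have h2 : (Φ (Φ^[n] x)).2.2 = (Φ^[n] x).2.2 - η * (v (Φ^[n] x)).2.2 := rfl
      have h3 : |η * (v (Φ^[n] x)).2.2| ≤ η := by
        rw [abs_mul, abs_of_pos hη]
        have := hv3 (Φ^[n] x)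
        nlinarith
      rw [abs_le] at h1 h3 ⊢
      push_cast
      rw [h2]
      constructor <;> linarith
  obtain ⟨n, hn⟩ := exists_nat_gt ((-δ0 - m) / κ)
  have hn' : -δ0 - n * κ < m := by
    rw [div_lt_iff₀ hκ] at hn
    linarith
  have hcont : Continuous (fun b => (Φ^[n] (σ b)).2.2) := by
    have := (hΦc.iterate n).comp hσ
    exact (continuous_snd.comp continuous_snd).comp this
  have hB : 0 ≤ n * η := by positivity
  obtain ⟨b, -, hb⟩ := intermediate_value_Icc (a := -(n * η + 1)) (b := n * η + 1) (by linarith)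
    hcont.continuousOn (show (0 : ℝ) ∈ Icc _ _ from ⟨by
      have := (abs_le.1 (hdisp n (σ (-(n * η + 1))))).2
      rw [hσb] at this
      linarith, by
      have := (abs_le.1 (hdisp n (σ (n * η + 1)))).1
      rw [hσb] at this
      linarith⟩)
  simp only at hb
  have h1 := hiter n (σ b) (hσE b)
  have h2 := hσE b
  have h3 := hm (Φ^[n] (σ b)).1 (Φ^[n] (σ b)).2.1
  have h4 : ((Φ^[n] (σ b)).1, (Φ^[n] (σ b)).2.1, (0 : ℝ)) = Φ^[n] (σ b) := by
    rw [← hb]
  rw [h4] at h3
  linarith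

end H593R2
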